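import Mathlib
import Pool.Agent.W_MP_7bf775_co.Basic

set_option autoImplicit false

namespace Pool.Agent.Results.MP_7bf775_co.CappedBicliqueCover

open Pool.Agent.W_MP_7bf775_co

/-- The ordered graph `G` on the vertices `0 < 1 < ... < n - 1` is capped: whenever
`i < j < k < l` and `ik`, `jl` are edges, also `il` is an edge. -/
def Capped {n : ℕ} (G : SimpleGraph (Fin n)) : Prop :=
  ∀ i j k l : Fin n, i < j → j < k → k < l → G.Adj i k → G.Adj j l → G.Adj i l

/-- `(A, B)` is a biclique of `G`: both sets are nonempty, they are disjoint, and all pairs in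
`A × B` are edges. -/
def IsBiclique {n : ℕ} (G : SimpleGraph (Fin n)) (A B : Finset (Fin n)) : Prop :=
  A.Nonempty ∧ B.Nonempty ∧ Disjoint A B ∧ ∀ a ∈ A, ∀ b ∈ B, G.Adj a b

/-- The family `(A t, B t)`, `t < m`, is a biclique cover of `G`: each pair is a biclique and each
edge of `G` has one end in `A t` and the other in `B t` for some `t`. -/
def IsBicliqueCover {n m : ℕ} (G : SimpleGraph (Fin n)) (A B : Fin m → Finset (Fin n)) : Prop :=
  (∀ t, IsBiclique G (A t) (B t)) ∧
    ∀ x y, G.Adj x y → ∃ t, (x ∈ A t ∧ y ∈ B t) ∨ (y ∈ A t ∧ x ∈ B t)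

/-- The size of a family of pairs: the total number of vertex occurrences. -/
def size {n m : ℕ} (A B : Fin m → Finset (Fin n)) : ℕ := ∑ t, ((A t).card + (B t).card)

theorem level_bound {n : ℕ} (hn : 2 ≤ n) :
    ((Nat.log 2 n + 1 : ℕ) : ℝ) ≤ 2 * Real.log n / Real.log 2 := by
  have hlog2 : 0 < Real.log 2 := Real.log_pos (by norm_num)
  have h1 : (Nat.log 2 n : ℝ) * Real.log 2 ≤ Real.log n := by
    rw [← Real.log_pow]
    apply Real.log_le_log (by positivity)
    exact_mod_cast Nat.pow_log_le_self 2 (by omega)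
  have h2 : Real.log 2 ≤ Real.log n := Real.log_le_log (by norm_num) (by exact_mod_cast hn)
  rw [le_div_iff₀ hlog2]
  push_cast
  nlinarith

/-- Every capped ordered graph on `n ≥ 2` vertices has a biclique cover of size at most
`100 n log² n`. -/
theorem result (n : ℕ) (hn : 2 ≤ n) (G : SimpleGraph (Fin n)) (hG : Capped G) :
    ∃ (m : ℕ) (A B : Fin m → Finset (Fin n)), IsBicliqueCover G A B ∧
      (size A B : ℝ) ≤ 100 * n * (Real.log n) ^ 2 := by
  classical
  set K := Nat.log 2 n + 1 with hK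
  have hnK : n < 2 ^ K := Nat.lt_pow_succ_log_self (by norm_num) n
  let R : ℕ → ℕ → Prop := fun x y => ∃ (hx : x < n) (hy : y < n), x < y ∧ G.Adj ⟨x, hx⟩ ⟨y, hy⟩
  have hR : CappedRel R := by
    rintro i j k l hij hjk hkl ⟨hi, hk, -, h1⟩ ⟨hj, hl, -, h2⟩
    exact ⟨hi, hl, by omega, hG ⟨i, hi⟩ ⟨j, hj⟩ ⟨k, hk⟩ ⟨l, hl⟩ hij hjk hkl h1 h2⟩
  obtain ⟨m, A, B, h1, h2, h3⟩ := cover_of_keys G
    (fun i => kL R K i) (fun l => kR R K l) (by
      intro i l key hi hl
      obtain ⟨_, _, _, h⟩ := sound hR hi hl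
      exact h) (by
      intro i l hil hadj
      exact complete (R := R) (K := K) hil (by have := l.2; omega) ⟨i.2, l.2, hil, hadj⟩)
    (5 * (K * K)) (fun i => card_kL_le R K i) (fun l => card_kR_le R K l)
  refine ⟨m, A, B, ⟨h1, h2⟩, ?_⟩
  have h4 : (size A B : ℝ) ≤ ((2 * (n * (5 * (K * K))) : ℕ) : ℝ) := by
    exact_mod_cast h3
  refine h4.trans ?_
  have h5 := level_bound hn
  rw [← hK] at h5
  have hlog2 : (0.6931471803 : ℝ) < Real.log 2 := Real.log_two_gt_d9
  have hlogn : 0 < Real.log n := Real.log_pos (by exact_mod_cast (by omega : 1 < n))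
  have h6 : (K : ℝ) ≤ 3 * Real.log n := by
    refine h5.trans ?_
    rw [div_le_iff₀ (by linarith)]
    nlinarith
  have hK0 : (0 : ℝ) ≤ K := Nat.cast_nonneg _
  have h7 : (K : ℝ) * K ≤ (3 * Real.log n) * (3 * Real.log n) := mul_le_mul h6 h6 hK0 (by linarith)
  have hn0 : (0 : ℝ) ≤ n := Nat.cast_nonneg _
  push_cast
  nlinarith [mul_le_mul_of_nonneg_left h7 hn0]

end Pool.Agent.Results.MP_7bf775_co.CappedBicliqueCover
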